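import Pool.Agent.PFS.Stmts

/-!
# PFS squad, rows A0, AAA
-/

set_option autoImplicit false

open Matrix Filter Topology

namespace Pool.Agent.PFS.H97

open Pool.Agent.PFS

section basic

variable {n : ℕ} {C : Set (V n)}

theorem cl_comb (hC : PCone C) {ι : Type} [Fintype ι] {w : ι → V n} (hw : PES C w) {c : ι → ℝ}
    (hc : ∀ i, 0 ≤ c i) : ∑ i, c i • w i ∈ closure C :=
  hC.cl_sum fun i _ => hC.cl_smul (hw.cl i) (hc i)

theorem smul_single {ι : Type} [Fintype ι] [DecidableEq ι] (w : ι → V n) (i : ι) :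
    ∑ l, (if l = i then (1 : ℝ) else 0) • w l = w i := by
  simp

theorem ne_zero_of (lin : LinStmt) (hC : PCone C) {ι : Type} [Fintype ι] {w : ι → V n}
    (hw : PES C w) (i : ι) : w i ≠ 0 := (lin n C hC ι w hw).ne_zero i

end basic

/-- A0 -/
theorem a0 (lin : LinStmt) : A0Stmt := by
  classical
  intro n C hC K hK w w' hw hw' hS hS' v s x M hM hs hnear hlim hx i β hβ hwi
  choose c hc h1 h2 using hnear
  set p : ℕ → V n := fun m => ∑ i, v m i • w i with hp
  obtain ⟨B, hB, hBn⟩ := hC.normal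
  have hK0 : Nonempty (Fin K) := ⟨⟨0, by omega⟩⟩
  -- boundedness
  have hbd : ∃ R : ℝ, ∀ m, ‖s m • p m‖ ≤ R := by
    obtain ⟨R, hR⟩ := (Metric.isBounded_range_of_tendsto _ hlim).exists_norm_le
    exact ⟨R, fun m => hR _ ⟨m, rfl⟩⟩
  obtain ⟨R, hR⟩ := hbd
  have hcoef : ∀ m j, ‖(s m * c m j) • w' j‖ ≤ B * (M * R) := by
    intro m j
    have h3 : (M • (s m • p m)) - (s m * c m j) • w' j ∈ closure C := by
      have h4 := hC.cl_smul (h2 m) (hs m).le
      have h5 : ∑ l, c m l • w' l - c m j • w' j ∈ closure C := by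
        rw [← Finset.add_sum_erase _ _ (Finset.mem_univ j), add_sub_cancel_left]
        exact hC.cl_sum fun l _ => hC.cl_smul (hw'.cl l) (hc m l).le
      have h6 := hC.cl_smul h5 (hs m).le
      have h7 := hC.cl_add h4 h6
      have e : s m • (M • ∑ i, v m i • w i - ∑ i, c m i • w' i) +
          s m • (∑ l, c m l • w' l - c m j • w' j) =
          (M • (s m • p m)) - (s m * c m j) • w' j := by
        rw [hp, ← smul_add, sub_add_sub_cancel, smul_sub, smul_comm, smul_smul (s m) (c m j)]
      rwa [e] at h7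
    have h8 := hBn _ _ (hC.cl_smul (hw'.cl j) (mul_pos (hs m) (hc m j)).le) h3
    refine h8.trans ?_
    rw [norm_smul, Real.norm_of_nonneg (by linarith)]
    have := hR m
    have hM0 : (0 : ℝ) ≤ M := by linarith
    exact mul_le_mul_of_nonneg_left (mul_le_mul_of_nonneg_left this hM0) hB.le
  obtain ⟨δ, hδ, hδ'⟩ : ∃ δ : ℝ, 0 < δ ∧ ∀ j, δ ≤ ‖w' j‖ := by
    obtain ⟨j₀, hj₀⟩ := Finite.exists_min (fun j => ‖w' j‖)
    exact ⟨‖w' j₀‖, norm_pos_iff.2 (ne_zero_of lin hC hw' j₀), hj₀⟩
  have hbd2 : ∀ m, (fun j => s m * c m j) ∈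
      Metric.closedBall (0 : Fin K → ℝ) (B * (M * R) / δ) := by
    intro m
    have hR0 : 0 ≤ R := (norm_nonneg _).trans (hR 0)
    rw [mem_closedBall_zero_iff, pi_norm_le_iff_of_nonneg (by
      have : (0 : ℝ) ≤ M := by linarith
      positivity)]
    intro j
    have h3 := hcoef m j
    rw [norm_smul] at h3
    rw [le_div_iff₀ hδ]
    exact (mul_le_mul_of_nonneg_left (hδ' j) (norm_nonneg _)).trans h3
  obtain ⟨d, -, φ, hφ, hd⟩ := tendsto_subseq_of_bounded Metric.isBounded_closedBall hbd2
  have hdj : ∀ j, Tendsto (fun m => s (φ m) * c (φ m) j) atTop (𝓝 (d j)) := fun j =>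
    (tendsto_pi_nhds.1 hd) j
  have hd0 : ∀ j, 0 ≤ d j := fun j =>
    ge_of_tendsto (hdj j) (Eventually.of_forall fun m => (mul_pos (hs _) (hc _ j)).le)
  set q : V n := ∑ j, d j • w' j with hq
  have hqlim : Tendsto (fun m => s (φ m) • ∑ j, c (φ m) j • w' j) atTop (𝓝 q) := by
    have h3 : (fun m => s (φ m) • ∑ j, c (φ m) j • w' j) =
        fun m => ∑ j, (s (φ m) * c (φ m) j) • w' j := by
      funext m
      rw [Finset.smul_sum]
      exact Finset.sum_congr rfl fun j _ => smul_smul _ _ _
    rw [h3]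
    exact tendsto_finsetSum _ fun j _ => (hdj j).smul_const _
  have hplim : Tendsto (fun m => s (φ m) • p (φ m)) atTop (𝓝 x) :=
    hlim.comp hφ.tendsto_atTop
  have hxq : q - x ∈ closure C := by
    refine isClosed_closure.mem_of_tendsto (hqlim.sub hplim) (Eventually.of_forall fun m => ?_)
    rw [← smul_sub]
    exact hC.cl_smul (h1 (φ m)) (hs _).le
  have hqx : M • x - q ∈ closure C := by
    refine isClosed_closure.mem_of_tendsto ((hplim.const_smul M).sub hqlim)
      (Eventually.of_forall fun m => ?_)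
    rw [smul_comm, ← smul_sub]
    exact hC.cl_smul (h2 (φ m)) (hs _).le
  have hM0 : 0 < M := by linarith
  have hqC : q ∉ C := by
    intro h
    apply hx
    rw [← hC.smul_iff hM0]
    exact hC.mem_of_le h hqx
  set I : Finset (Fin K) := Finset.univ.filter (fun j => 0 < d j) with hI
  have hIne : I ≠ Finset.univ := by
    intro h
    apply hqC
    refine hw'.pos d fun j => ?_
    have : j ∈ I := by rw [h]; exact Finset.mem_univ j
    exact (Finset.mem_filter.1 this).2
  -- `w i ≤ β'' ∑ w'`
  obtain ⟨jm, hjm⟩ := Finite.exists_max d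
  set D : ℝ := d jm with hD
  have h3 : (β * D) • ∑ j ∈ I, w' j - w i ∈ closure C := by
    have h4 : β • q - β • x ∈ closure C := by
      rw [← smul_sub]
      exact hC.cl_smul hxq hβ.le
    have h5 : (β * D) • ∑ j ∈ I, w' j - β • q ∈ closure C := by
      have e : (β * D) • ∑ j ∈ I, w' j - β • q = ∑ j ∈ I, (β * (D - d j)) • w' j := by
        have e1 : q = ∑ j ∈ I, d j • w' j := by
          rw [hq, hI, Finset.sum_filter]
          refine Finset.sum_congr rfl fun j _ => ?_
          by_cases h : 0 < d j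
          · rw [if_pos h]
          · rw [if_neg h, le_antisymm (not_lt.1 h) (hd0 j), zero_smul]
        rw [e1, Finset.smul_sum, Finset.smul_sum, ← Finset.sum_sub_distrib]
        refine Finset.sum_congr rfl fun j _ => ?_
        rw [smul_smul, ← sub_smul, mul_sub]
      rw [e]
      exact hC.cl_sum fun j _ => hC.cl_smul (hw'.cl j)
        (mul_nonneg hβ.le (sub_nonneg.2 (hjm j)))
    have h6 := hC.cl_add (hC.cl_add h5 h4) hwi
    have e : (β * D) • ∑ j ∈ I, w' j - β • q + (β • q - β • x) + (β • x - w i) =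
        (β * D) • ∑ j ∈ I, w' j - w i := by abel
    rwa [e] at h6
  obtain ⟨e, he0, -, hew⟩ := hS' I hIne _ _ (hw.cl i) h3
  have hwi0 : w i ≠ 0 := ne_zero_of lin hC hw i
  obtain ⟨j, hj⟩ : ∃ j, 0 < e j := by
    by_contra hcon
    push Not at hcon
    apply hwi0
    rw [hew]
    refine Finset.sum_eq_zero fun j _ => ?_
    rw [le_antisymm (hcon j) (he0 j), zero_smul]
  have h7 : (1 : ℝ) • ∑ l ∈ ({i} : Finset (Fin K)), w l - e j • w' j ∈ closure C := by
    rw [one_smul, Finset.sum_singleton, hew, ← Finset.add_sum_erase _ _ (Finset.mem_univ j),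
      add_sub_cancel_left]
    exact hC.cl_sum fun l _ => hC.cl_smul (hw'.cl l) (he0 l)
  have hine : ({i} : Finset (Fin K)) ≠ Finset.univ := by
    intro h
    have h8 := congrArg Finset.card h
    rw [Finset.card_singleton, Finset.card_univ, Fintype.card_fin] at h8
    omega
  obtain ⟨f, hf0, hfi, hf⟩ := hS {i} hine 1 (e j • w' j) (hC.cl_smul (hw'.cl j) hj.le) h7
  have h8 : e j • w' j = f i • w i := by
    rw [hf, Finset.sum_eq_single i]
    · intro l _ hl
      rw [hfi l (by rw [Finset.mem_singleton]; exact hl), zero_smul]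
    · intro h
      exact absurd (Finset.mem_univ _) h
  have hfi0 : 0 < f i := by
    refine lt_of_le_of_ne (hf0 i) fun h0 => ?_
    rw [← h0, zero_smul, smul_eq_zero] at h8
    rcases h8 with h8 | h8
    · exact hj.ne' h8
    · exact ne_zero_of lin hC hw' j h8
  refine ⟨j, e j / f i, div_pos hj hfi0, ?_⟩
  rw [div_eq_inv_mul, mul_smul, h8, smul_smul, inv_mul_cancel₀ hfi0.ne', one_smul]

/-- AAA -/
theorem aaa (a0 : A0Stmt) (lin : LinStmt) : AStmt := by
  classical
  intro n C hC K hK w w' hw hw' hS hS' J M hM hJ hJc hnear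
  have hlin := lin n C hC (Fin K) w hw
  have key : ∀ i : Fin K, ∃ (j : Fin K) (c : ℝ), 0 < c ∧ w i = c • w' j := by
    intro i
    obtain ⟨i', hi'J, hii'⟩ : ∃ i', i' ∉ J ∧ (i ∉ J → i' = i) := by
      by_cases hi : i ∈ J
      · obtain ⟨i', hi'⟩ : (Jᶜ).Nonempty := Finset.card_pos.1 (by omega)
        exact ⟨i', Finset.mem_compl.1 hi', fun h => absurd hi h⟩
      · exact ⟨i, hi, fun _ => rfl⟩
    obtain ⟨i₂, hi₂J, hi₂⟩ : ∃ i₂, i₂ ∉ J ∧ i₂ ≠ i' := by
      have h1 : 1 < (Jᶜ).card := by omega
      obtain ⟨i₂, h2, h3⟩ := Finset.exists_mem_ne h1 i'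
      exact ⟨i₂, Finset.mem_compl.1 h2, h3⟩
    set u : ℕ → Fin K → ℤ := fun N l => if l ∈ J then (N : ℤ) + 1 else if l = i' then (N : ℤ) else 0
      with hu
    set cf : Fin K → ℝ := fun l => if l ∈ J then 2 else if l = i' then 1 else 0 with hcf
    have hcf0 : ∀ l, 0 ≤ cf l := by
      intro l
      rw [hcf]
      simp only
      split_ifs <;> norm_num
    have hx : ∑ l, cf l • w l ∉ C := by
      refine hw.bd cf hcf0 ⟨i₂, ?_⟩
      rw [hcf]
      simp only
      rw [if_neg hi₂J, if_neg hi₂]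
    have hlim : Tendsto (fun N : ℕ => ((2 : ℝ) ^ N)⁻¹ • ∑ l, (2 : ℝ) ^ (u N l) • w l) atTop
        (𝓝 (∑ l, cf l • w l)) := by
      have h1 : (fun N : ℕ => ((2 : ℝ) ^ N)⁻¹ • ∑ l, (2 : ℝ) ^ (u N l) • w l) =
          fun N : ℕ => ∑ l, (((2 : ℝ) ^ N)⁻¹ * (2 : ℝ) ^ (u N l)) • w l := by
        funext N
        rw [Finset.smul_sum]
        exact Finset.sum_congr rfl fun l _ => smul_smul _ _ _
      rw [h1]
      refine tendsto_finsetSum _ fun l _ => Tendsto.smul_const ?_ _
      by_cases hl : l ∈ J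
      · have h2 : (fun N : ℕ => ((2 : ℝ) ^ N)⁻¹ * (2 : ℝ) ^ (u N l)) = fun _ => cf l := by
          funext N
          rw [hu, hcf]
          simp only
          rw [if_pos hl, if_pos hl, zpow_add₀ (by norm_num), zpow_natCast, zpow_one, ← mul_assoc,
            inv_mul_cancel₀ (by positivity), one_mul]
        rw [h2]
        exact tendsto_const_nhds
      · by_cases hl' : l = i'
        · have h2 : (fun N : ℕ => ((2 : ℝ) ^ N)⁻¹ * (2 : ℝ) ^ (u N l)) = fun _ => cf l := by
            funext N
            rw [hu, hcf]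
            simp only
            rw [if_neg hl, if_neg hl, if_pos hl', if_pos hl', zpow_natCast,
              inv_mul_cancel₀ (by positivity)]
          rw [h2]
          exact tendsto_const_nhds
        · have h2 : (fun N : ℕ => ((2 : ℝ) ^ N)⁻¹ * (2 : ℝ) ^ (u N l)) =
              fun N : ℕ => ((2 : ℝ)⁻¹) ^ N := by
            funext N
            rw [hu]
            simp only
            rw [if_neg hl, if_neg hl', zpow_zero, mul_one, inv_pow]
          have h3 : cf l = 0 := by
            rw [hcf]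
            simp only
            rw [if_neg hl, if_neg hl']
          rw [h2, h3]
          exact tendsto_pow_atTop_nhds_zero_of_lt_one (by norm_num) (by norm_num)
    refine a0 n C hC K hK w w' hw hw' hS hS' (fun N l => (2 : ℝ) ^ (u N l))
      (fun N => ((2 : ℝ) ^ N)⁻¹) _ M hM (fun N => by positivity) ?_ hlim hx i 1 one_pos ?_
    · intro N
      refine hnear (u N) ?_
      intro a ha b hb
      rw [hu]
      simp only
      rw [if_neg ha, if_pos hb]
      split_ifs
      · omega
      · positivity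
    · have h1 : (1 : ℝ) • ∑ l, cf l • w l - w i =
          ∑ l, (cf l - if l = i then 1 else 0) • w l := by
        rw [one_smul]
        simp only [sub_smul, Finset.sum_sub_distrib]
        rw [smul_single]
      rw [h1]
      refine cl_comb hC hw fun l => ?_
      by_cases hl : l = i
      · rw [if_pos hl, sub_nonneg, hl, hcf]
        simp only
        by_cases hi : i ∈ J
        · rw [if_pos hi]; norm_num
        · rw [if_neg hi, if_pos (hii' hi).symm]
      · rw [if_neg hl, sub_zero]
        exact hcf0 l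
  choose σ c hc hσ using key
  have hinj : Function.Injective σ := by
    intro i k hik
    by_contra hne
    have h1 := hσ i
    have h2 := hσ k
    rw [hik] at h1
    have h3 : (c i)⁻¹ • w i = (c k)⁻¹ • w k := by
      rw [h1, h2, smul_smul, smul_smul, inv_mul_cancel₀ (hc i).ne', inv_mul_cancel₀ (hc k).ne']
    have h4 : ∑ l, ((if l = i then (c i)⁻¹ else 0) - (if l = k then (c k)⁻¹ else 0)) • w l = 0 := by
      simp only [sub_smul, Finset.sum_sub_distrib, ite_smul, zero_smul, Finset.sum_ite_eq',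
        Finset.mem_univ, if_true]
      rw [h3, sub_self]
    have h5 := (Fintype.linearIndependent_iff.1 hlin) _ h4 i
    rw [if_pos rfl, if_neg hne, sub_zero] at h5
    exact (inv_pos.2 (hc i)).ne' h5
  refine ⟨Equiv.ofBijective σ (Finite.injective_iff_bijective.1 hinj), c, hc, fun i => ?_⟩
  rw [Equiv.ofBijective_apply]
  exact hσ i

end Pool.Agent.PFS.H97
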