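import Pool.Agent.PFS.Stmts

/-!
# PFS squad, row CC1
-/

set_option autoImplicit false

open Matrix Filter Topology

namespace Pool.Agent.PFS.H97

open Pool.Agent.PFS

/-- CC1 -/
theorem cc1 (fnl : FunStmt) : C1Stmt := by
  classical
  intro n C hC K hK w w' i hw hw' hww hnear l hli φ hφC hφcl hφ0 hφl
  -- a third index
  obtain ⟨j, hji, hjl⟩ : ∃ j : Fin K, j ≠ i ∧ j ≠ l := by
    by_contra hcon
    push Not at hcon
    have h1 : (Finset.univ : Finset (Fin K)) ⊆ {i, l} := by
      intro j _
      rw [Finset.mem_insert, Finset.mem_singleton]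
      by_cases h : j = i
      · exact Or.inl h
      · exact Or.inr (hcon j h)
    have h2 := Finset.card_le_card h1
    rw [Finset.card_univ, Fintype.card_fin] at h2
    have h3 := Finset.card_le_two (a := i) (b := l)
    omega
  obtain ⟨φ', hφ'C, hφ'cl, hφ'0, hφ'l⟩ := fnl n C hC (Fin K) w' l hw'
  obtain ⟨ψ, hψC, hψcl, hψ0, hψi⟩ := fnl n C hC (Fin K) w i hw
  have hwl : w' l = w l := hww l hli
  have key : ∀ M : ℝ, 1 < M → ∃ ci : ℝ, 0 < ci ∧ ψ (w i) ≤ ci * ψ (w' i) ∧
      ci * φ (w' i) ≤ 2 * (M - 1) * φ (w l) := by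
    intro M hM
    obtain ⟨N, hN⟩ := (hnear j hji M hM).exists
    obtain ⟨c, hc, h1, h2⟩ := hN
    set u : Fin K → ℤ := fun l => if l = i then 0 else if l = j then (N : ℤ) else 1 with hu
    have hui : u i = 0 := by rw [hu]; simp
    have hul : u l = 1 := by
      rw [hu]
      simp only
      rw [if_neg hli, if_neg (Ne.symm hjl)]
    refine ⟨c i, hc i, ?_, ?_⟩
    · have h3 := hψcl _ h1
      rw [map_sub, map_sum, pt, map_sum] at h3
      have e1 : ∑ m, ψ (c m • w' m) = c i * ψ (w' i) := by
        rw [Finset.sum_eq_single i]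
        · rw [map_smul, smul_eq_mul]
        · intro m _ hm
          rw [map_smul, hww m hm, hψ0 m hm, smul_zero]
        · intro h
          exact absurd (Finset.mem_univ _) h
      have e2 : ∑ m, ψ ((2 : ℝ) ^ u m • w m) = ψ (w i) := by
        rw [Finset.sum_eq_single i]
        · rw [map_smul, hui, zpow_zero, one_smul]
        · intro m _ hm
          rw [map_smul, hψ0 m hm, smul_zero]
        · intro h
          exact absurd (Finset.mem_univ _) h
      rw [e1, e2] at h3
      linarith
    · -- `c l ≥ 2`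
      have h3 := hφ'cl _ h1
      rw [map_sub, map_sum, pt, map_sum] at h3
      have e1 : ∑ m, φ' (c m • w' m) = c l * φ' (w' l) := by
        rw [Finset.sum_eq_single l]
        · rw [map_smul, smul_eq_mul]
        · intro m _ hm
          rw [map_smul, hφ'0 m hm, smul_zero]
        · intro h
          exact absurd (Finset.mem_univ _) h
      have e2 : 2 * φ' (w' l) ≤ ∑ m, φ' ((2 : ℝ) ^ u m • w m) := by
        have h5 : φ' ((2 : ℝ) ^ u l • w l) = 2 * φ' (w' l) := by
          rw [map_smul, hul, zpow_one, smul_eq_mul, hwl]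
        rw [← h5]
        apply Finset.single_le_sum (f := fun m => φ' ((2 : ℝ) ^ u m • w m)) _ (Finset.mem_univ l)
        intro m _
        change 0 ≤ φ' ((2 : ℝ) ^ u m • w m)
        rw [map_smul, smul_eq_mul]
        exact mul_nonneg (by positivity) (hφ'cl _ (hw.cl m))
      rw [e1] at h3
      have hcl : 2 ≤ c l := by
        have h6 : 2 * φ' (w' l) ≤ c l * φ' (w' l) := by linarith
        exact le_of_mul_le_mul_right h6 hφ'l
      have h7 := hφcl _ h2
      rw [map_sub, map_smul, map_sum, pt, map_sum, smul_eq_mul] at h7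
      have e3 : ∑ m, φ (c m • w' m) = c i * φ (w' i) + c l * φ (w l) := by
        rw [← Finset.add_sum_erase _ _ (Finset.mem_univ i), map_smul, smul_eq_mul]
        congr 1
        rw [Finset.sum_eq_single l]
        · rw [map_smul, smul_eq_mul, hwl]
        · intro m hm hml
          rw [map_smul, hww m (Finset.ne_of_mem_erase hm), hφ0 m hml, smul_zero]
        · intro h
          exact absurd (Finset.mem_erase.2 ⟨hli, Finset.mem_univ _⟩) h
      have e4 : ∑ m, φ ((2 : ℝ) ^ u m • w m) = 2 * φ (w l) := by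
        rw [Finset.sum_eq_single l]
        · rw [map_smul, hul, zpow_one, smul_eq_mul]
        · intro m _ hm
          rw [map_smul, hφ0 m hm, smul_zero]
        · intro h
          exact absurd (Finset.mem_univ _) h
      rw [e3, e4] at h7
      nlinarith
  -- conclusion
  have hψ' : 0 < ψ (w' i) := by
    obtain ⟨ci, hci, h1, -⟩ := key 2 (by norm_num)
    by_contra hcon
    push Not at hcon
    nlinarith
  have hφ' : 0 ≤ φ (w' i) := hφcl _ (hw'.cl i)
  by_contra hne
  have hpos : 0 < φ (w' i) := lt_of_le_of_ne hφ' (Ne.symm hne)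
  set κ := ψ (w i) / ψ (w' i) with hκ
  have hκ0 : 0 < κ := div_pos hψi hψ'
  obtain ⟨ci, hci, h1, h2⟩ := key (1 + κ * φ (w' i) / (4 * φ (w l))) (by
    have : 0 < κ * φ (w' i) / (4 * φ (w l)) := by positivity
    linarith)
  have h3 : κ ≤ ci := by
    rw [hκ, div_le_iff₀ hψ']
    exact h1
  have h4 : 2 * (1 + κ * φ (w' i) / (4 * φ (w l)) - 1) * φ (w l) = κ * φ (w' i) / 2 := by
    field_simp
    ring
  rw [h4] at h2
  have h5 : κ * φ (w' i) ≤ ci * φ (w' i) := mul_le_mul_of_nonneg_right h3 hφ'
  have h6 : 0 < κ * φ (w' i) := mul_pos hκ0 hpos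
  linarith

end Pool.Agent.PFS.H97
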