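import Pool.Agent.PFS.Stmts

/-!
# PFS squad, row GAP
-/

set_option autoImplicit false

open Matrix Filter Topology

namespace Pool.Agent.PFS.H97

open Pool.Agent.PFS

/-- one vector -/
theorem gap_one {K : ℕ} (u : Fin K → ℤ) {L : ℤ} (hL : 1 ≤ L) {a b' : Fin K}
    (hab : K * L ≤ u a - u b') :
    ∃ J : Finset (Fin K), J.Nonempty ∧ (Jᶜ).Nonempty ∧ ∀ i, i ∉ J → ∀ j, j ∈ J → L ≤ u i - u j := by
  classical
  have hne : Nonempty (Fin K) := ⟨a⟩
  obtain ⟨b, hb⟩ := Finite.exists_min u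
  have hex : ∃ t : Fin K, ∀ i, ¬ (u b + (t : ℕ) * L < u i ∧ u i ≤ u b + ((t : ℕ) + 1) * L) := by
    by_contra hcon
    push Not at hcon
    choose f hf using hcon
    have hinj : Function.Injective f := by
      intro t t' htt
      by_contra hne
      rcases lt_or_gt_of_ne hne with hlt | hlt
      · have h1 := (hf t).2
        have h2 := (hf t').1
        rw [htt] at h1
        have h3 : ((t : ℕ) : ℤ) + 1 ≤ (t' : ℕ) := by exact_mod_cast hlt
        nlinarith
      · have h1 := (hf t').2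
        have h2 := (hf t).1
        rw [← htt] at h1
        have h3 : ((t' : ℕ) : ℤ) + 1 ≤ (t : ℕ) := by exact_mod_cast hlt
        nlinarith
    obtain ⟨t, ht⟩ := (Finite.injective_iff_surjective.1 hinj) b
    have h1 := (hf t).1
    rw [ht] at h1
    have h2 : (0 : ℤ) ≤ (t : ℕ) := by positivity
    nlinarith
  obtain ⟨t, ht⟩ := hex
  have ht0 : (0 : ℤ) ≤ (t : ℕ) := by positivity
  have htK : ((t : ℕ) : ℤ) + 1 ≤ K := by exact_mod_cast t.2
  refine ⟨Finset.univ.filter (fun j => u j ≤ u b + (t : ℕ) * L), ⟨b, ?_⟩, ⟨a, ?_⟩, ?_⟩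
  · rw [Finset.mem_filter]
    refine ⟨Finset.mem_univ _, ?_⟩
    nlinarith
  · rw [Finset.mem_compl, Finset.mem_filter, not_and, not_le]
    intro _
    have := hb b'
    nlinarith
  · intro i hi j hj
    rw [Finset.mem_filter, not_and, not_le] at hi
    rw [Finset.mem_filter] at hj
    have h1 := hi (Finset.mem_univ _)
    have h2 := ht i
    rw [not_and, not_le] at h2
    have h3 := h2 h1
    have h4 := hj.2
    nlinarith

/-- GAP -/
theorem gap : GapStmt := by
  classical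
  intro K u hu
  -- one `J` for infinitely many
  have hJ : ∃ J : Finset (Fin K), ∀ L : ℕ, ∃ᶠ m in atTop, J.Nonempty ∧ (Jᶜ).Nonempty ∧
      ∀ i, i ∉ J → ∀ j, j ∈ J → (L : ℤ) ≤ u m i - u m j := by
    by_contra hcon
    simp only [not_exists, not_forall, not_frequently] at hcon
    choose Lf hLf using hcon
    set L : ℕ := (∑ J : Finset (Fin K), Lf J) + 1 with hLdef
    have hLJ : ∀ J, Lf J ≤ L := fun J =>
      (Finset.single_le_sum (fun _ _ => Nat.zero_le _) (Finset.mem_univ J)).trans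
        (Nat.le_succ _)
    have h1 := hu (K * L)
    have h2 : ∀ᶠ m in atTop, ∀ J : Finset (Fin K), ¬ (J.Nonempty ∧ (Jᶜ).Nonempty ∧
        ∀ i, i ∉ J → ∀ j, j ∈ J → (Lf J : ℤ) ≤ u m i - u m j) := by
      rw [eventually_all]
      intro J
      exact hLf J
    obtain ⟨m, ⟨a, b, hab⟩, hm⟩ := (h1.and h2).exists
    obtain ⟨J, hJ1, hJ2, hJ3⟩ := gap_one (u m) (L := (L : ℤ)) (by
      rw [hLdef]; push_cast; linarith [show (0 : ℤ) ≤ ∑ J : Finset (Fin K), (Lf J : ℤ) from
        Finset.sum_nonneg fun _ _ => by positivity]) hab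
    refine hm J ⟨hJ1, hJ2, fun i hi j hj => ?_⟩
    have h3 := hJ3 i hi j hj
    have h4 : (Lf J : ℤ) ≤ L := by exact_mod_cast hLJ J
    linarith
  obtain ⟨J, hJ⟩ := hJ
  obtain ⟨φ, hφ, hφ'⟩ := extraction_forall_of_frequently hJ
  refine ⟨φ, J, hφ, (hφ' 0).1, (hφ' 0).2.1, ?_⟩
  intro L
  filter_upwards [eventually_ge_atTop L.toNat] with m hm i hi j hj
  have h1 := (hφ' m).2.2 i hi j hj
  have h2 : L ≤ (m : ℤ) := by
    have := Int.self_le_toNat L
    have h3 : (L.toNat : ℤ) ≤ m := by exact_mod_cast hm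
    linarith
  linarith

end Pool.Agent.PFS.H97
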