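import Pool.Agent.Helper97_PFS.AAA

/-!
# PFS squad, row CC2
-/

set_option autoImplicit false

open Matrix Filter Topology

namespace Pool.Agent.PFS.H97

open Pool.Agent.PFS

/-- CC2 -/
theorem cc2 (clo : CloStmt) (fnl : FunStmt) (lin : LinStmt) (fzm : FzmStmt) : C2Stmt := by
  classical
  intro n C Γ hCC hSF K hK hMC w w' i hw hw' hww hnm H
  have hC := hCC.toPCone
  have hHul := hCC.hul
  obtain ⟨l, hli⟩ : ∃ l : Fin K, l ≠ i := by
    by_contra hcon
    push Not at hcon
    have h1 : (Finset.univ : Finset (Fin K)) ⊆ {i} := fun j _ =>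
      Finset.mem_singleton.2 (hcon j)
    have h2 := Finset.card_le_card h1
    rw [Finset.card_univ, Fintype.card_fin, Finset.card_singleton] at h2
    omega
  -- the vectors
  set v : Fin K → V n := fun m => if m = l then w' i else w m with hv
  have hvl : v l = w' i := by rw [hv]; simp
  have hvm : ∀ m, m ≠ l → v m = w m := by
    intro m hm
    rw [hv]
    simp only
    rw [if_neg hm]
  have hvH : ∀ m, v m ∈ Hull C Γ := by
    intro m
    by_cases hm : m = l
    · rw [hm, hvl]; exact hHul.lamHull _ (hw'.2 i)
    · rw [hvm m hm]; exact hHul.lamHull _ (hw.2 m)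
  have hvcl : ∀ m, v m ∈ closure C := fun m => hHul.hullCl _ (hvH m)
  set z : V n := ∑ m, v m with hz
  -- functionals
  have hfun : ∀ m, ∃ φ : (V n) →ₗ[ℝ] ℝ, (∀ x ∈ C, 0 < φ x) ∧ (∀ x ∈ closure C, 0 ≤ φ x) ∧
      (∀ k, k ≠ m → φ (w k) = 0) ∧ 0 < φ (w m) := fun m => fnl n C hC (Fin K) w m hw.1
  choose φ hφC hφcl hφ0 hφm using hfun
  have hH : ∀ m, m ≠ i → φ m (w' i) = 0 := fun m hm =>
    H m hm (φ m) (hφC m) (hφcl m) (hφ0 m) (hφm m)
  have hzC : z ∉ C := by
    intro h
    have h1 := hφC l z h
    have h2 : φ l z = 0 := by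
      rw [hz, map_sum]
      refine Finset.sum_eq_zero fun m _ => ?_
      by_cases hm : m = l
      · rw [hm, hvl, hH l hli]
      · rw [hvm m hm, hφ0 l m hm]
    rw [h2] at h1
    exact lt_irrefl _ h1
  have hz0 : z ≠ 0 := by
    intro h
    have h1 : φ i z = 0 := by rw [h, map_zero]
    have h2 : φ i (v i) ≤ φ i z := by
      rw [hz, map_sum]
      exact Finset.single_le_sum (f := fun m => φ i (v m)) (fun m _ => hφcl i _ (hvcl m))
        (Finset.mem_univ i)
    rw [hvm i (Ne.symm hli), h1] at h2
    exact absurd (hφm i) (not_lt.2 h2)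
  have hzH : z ∈ Hull C Γ := by
    have h1 : ∀ s : Finset (Fin K), s.Nonempty → ∑ m ∈ s, v m ∈ Hull C Γ := by
      intro s hs
      induction hs using Finset.Nonempty.cons_induction with
      | singleton a => rw [Finset.sum_singleton]; exact hvH a
      | cons a s ha hs ih =>
        rw [Finset.sum_cons]
        exact hHul.add _ (hvH a) _ ih
    exact h1 _ ⟨i, Finset.mem_univ i⟩
  have hzL : z ∈ LamC C Γ := clo n C Γ hCC (fun _ => z) z (fun _ => hzH) tendsto_const_nhds
    hzC hz0
  obtain ⟨r, y, hy, hyF⟩ := hSF z hzL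
  -- independence of the vectors
  have hvi : LinearIndependent ℝ v := by
    rw [Fintype.linearIndependent_iff]
    intro a ha
    have h1 : ∀ m, m ≠ l → m ≠ i → a m = 0 := by
      intro m hml hmi
      have h2 := congrArg (φ m) ha
      rw [map_sum, map_zero, Finset.sum_eq_single m] at h2
      · rw [map_smul, smul_eq_mul, hvm m hml] at h2
        exact (mul_eq_zero.1 h2).resolve_right (hφm m).ne'
      · intro k _ hk
        rw [map_smul]
        by_cases hkl : k = l
        · rw [hkl, hvl, hH m hmi, smul_zero]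
        · rw [hvm k hkl, hφ0 m k hk, smul_zero]
      · intro h
        exact absurd (Finset.mem_univ _) h
    have h2 : a i • w i + a l • w' i = 0 := by
      rw [← ha, ← Finset.add_sum_erase _ _ (Finset.mem_univ i), hvm i (Ne.symm hli)]
      congr 1
      rw [Finset.sum_eq_single l]
      · rw [hvl]
      · intro k hk hkl
        rw [h1 k hkl (Finset.ne_of_mem_erase hk), zero_smul]
      · intro h
        exact absurd (Finset.mem_erase.2 ⟨hli, Finset.mem_univ _⟩) h
    have hal : a l = 0 := by
      by_contra hne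
      have h3 : w' i = (-(a i) / a l) • w i := by
        have h4 : a l • w' i = (-(a i)) • w i := by
          rw [neg_smul]
          exact eq_neg_of_add_eq_zero_right h2
        rw [div_eq_inv_mul, mul_smul, ← h4, smul_smul, inv_mul_cancel₀ hne, one_smul]
      apply hnm
      refine ⟨-(a i) / a l, ?_, h3⟩
      have h5 := hφcl i _ (hw'.1.cl i)
      rw [h3, map_smul, smul_eq_mul] at h5
      have h6 : 0 ≤ -(a i) / a l := by
        by_contra hneg
        push Not at hneg
        have := mul_neg_of_neg_of_pos hneg (hφm i)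
        linarith
      refine lt_of_le_of_ne h6 fun h7 => ?_
      rw [← h7, zero_smul] at h3
      exact ne_zero_of lin hC hw'.1 i h3
    have hai : a i = 0 := by
      rw [hal, zero_smul, add_zero, smul_eq_zero] at h2
      exact h2.resolve_right (ne_zero_of lin hC hw.1 i)
    intro m
    by_cases hml : m = l
    · rw [hml, hal]
    · by_cases hmi : m = i
      · rw [hmi, hai]
      · exact h1 m hml hmi
  -- they lie in the span of `y`
  have hF : ∀ x ∈ Face C z, x ∈ Submodule.span ℝ (Set.range y) := by
    intro x hx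
    rw [hyF] at hx
    obtain ⟨c, -, rfl⟩ := hx
    exact Submodule.sum_mem _ fun k _ => Submodule.smul_mem _ _ (Submodule.subset_span ⟨k, rfl⟩)
  have hzF : z ∈ Face C z := by
    refine ⟨1, one_pos, ?_, ?_⟩
    · rw [one_smul, sub_self]; exact hC.zero_cl
    · rw [one_smul, sub_self]; exact hC.zero_cl
  have hvs : ∀ m, v m ∈ Submodule.span ℝ (Set.range y) := by
    intro m
    have h1 : z + v m ∈ Face C z := by
      refine ⟨1 / 2, by norm_num, ?_, ?_⟩
      · have e : z - (1 / 2 : ℝ) • (z + v m) = (1 / 2 : ℝ) • ∑ k ∈ Finset.univ.erase m, v k := by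
          have e1 : ∑ k ∈ Finset.univ.erase m, v k = z - v m := by
            rw [hz, ← Finset.add_sum_erase _ _ (Finset.mem_univ m), add_sub_cancel_left]
          rw [e1, smul_add, smul_sub]
          have e2 : z = (1 / 2 : ℝ) • z + (1 / 2 : ℝ) • z := by
            rw [← add_smul]; norm_num
          nth_rewrite 1 [e2]
          abel
        rw [e]
        exact hC.cl_smul (hC.cl_sum fun k _ => hvcl k) (by norm_num)
      · have e : z + v m - (1 / 2 : ℝ) • z = (1 / 2 : ℝ) • z + v m := by
          have e2 : z = (1 / 2 : ℝ) • z + (1 / 2 : ℝ) • z := by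
            rw [← add_smul]; norm_num
          nth_rewrite 1 [e2]
          abel
        rw [e]
        exact hC.cl_add (hC.cl_smul (hHul.hullCl _ hzH) (by norm_num)) (hvcl m)
    have h2 := Submodule.sub_mem _ (hF _ h1) (hF _ hzF)
    rwa [add_sub_cancel_left] at h2
  have hKr : K ≤ r := by
    let v' : Fin K → Submodule.span ℝ (Set.range y) := fun m => ⟨v m, hvs m⟩
    have hv' : LinearIndependent ℝ v' := by
      apply LinearIndependent.of_comp (Submodule.span ℝ (Set.range y)).subtype
      exact hvi
    have h1 := hv'.fintype_card_le_finrank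
    rw [finrank_span_eq_card hy, Fintype.card_fin, Fintype.card_fin] at h1
    exact h1
  -- the zoom at the face
  obtain ⟨c, hc, hcH⟩ := hCC.core
  obtain ⟨W, hW⟩ := fzm n C Γ hCC r 1 z y (fun _ => c) hzL hy hyF one_pos (fun _ => hcH)
    (by
      rw [Fin.sum_univ_one]
      exact hC.cl_add' (hHul.hullCl _ hzH) hc)
    (by
      intro j
      have : Finset.univ.erase j = (∅ : Finset (Fin 1)) := by
        ext a
        rw [Finset.mem_erase]
        simp [Subsingleton.elim a j]
      rw [this, Finset.sum_empty, add_zero]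
      exact hzC)
  have := hMC (r + 1) W hW
  omega

end Pool.Agent.PFS.H97
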